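import Mathlib

/-!
# Hermitian forms on `ℍⁿ` and invariant subspaces

`ℍⁿ` is a right vector space over the quaternions; right subspaces are `Submodule ℍᵐᵒᵖ`.
-/

set_option autoImplicit false

open Matrix Quaternion MulOpposite

namespace Pool.Agent.X192.QH

variable {n : ℕ}

/-- the form `x* G y` -/
noncomputable def g (G : Matrix (Fin n) (Fin n) ℍ[ℝ]) (x y : Fin n → ℍ[ℝ]) : ℍ[ℝ] :=
  star x ⬝ᵥ (G *ᵥ y)

theorem smul_apply' (q : ℍ[ℝ]) (x : Fin n → ℍ[ℝ]) (i : Fin n) : (op q • x) i = x i * q := rfl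

theorem mulVec_smul_right (A : Matrix (Fin n) (Fin n) ℍ[ℝ]) (x : Fin n → ℍ[ℝ]) (q : ℍ[ℝ]) :
    A *ᵥ (op q • x) = op q • (A *ᵥ x) := by
  ext1 i
  simp only [Matrix.mulVec, dotProduct, smul_apply', Finset.sum_mul, mul_assoc]

theorem g_add_right (G : Matrix (Fin n) (Fin n) ℍ[ℝ]) (x y z : Fin n → ℍ[ℝ]) :
    g G x (y + z) = g G x y + g G x z := by
  simp only [g, Matrix.mulVec_add, dotProduct_add]

theorem g_add_left (G : Matrix (Fin n) (Fin n) ℍ[ℝ]) (x y z : Fin n → ℍ[ℝ]) :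
    g G (x + y) z = g G x z + g G y z := by
  simp only [g, star_add, add_dotProduct]

theorem g_smul_right (G : Matrix (Fin n) (Fin n) ℍ[ℝ]) (x y : Fin n → ℍ[ℝ]) (q : ℍ[ℝ]) :
    g G x (op q • y) = g G x y * q := by
  simp only [g, mulVec_smul_right, dotProduct, smul_apply', Finset.sum_mul, mul_assoc]

theorem g_star {G : Matrix (Fin n) (Fin n) ℍ[ℝ]} (hG : Gᴴ = G) (x y : Fin n → ℍ[ℝ]) :
    star (g G x y) = g G y x := by
  simp only [g, dotProduct, Matrix.mulVec, star_sum, star_mul, Pi.star_apply, star_star,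
    Finset.mul_sum]
  rw [Finset.sum_comm]
  refine Finset.sum_congr rfl fun i _ => Finset.sum_congr rfl fun j _ => ?_
  have : star (G j i) = G i j := by
    conv_rhs => rw [← hG]
    rfl
  rw [this, mul_assoc]

theorem g_smul_left (G : Matrix (Fin n) (Fin n) ℍ[ℝ]) (x y : Fin n → ℍ[ℝ]) (q : ℍ[ℝ]) :
    g G (op q • x) y = star q * g G x y := by
  simp only [g, dotProduct, Pi.star_apply, smul_apply', star_mul, Finset.mul_sum, mul_assoc]

theorem g_neg (G : Matrix (Fin n) (Fin n) ℍ[ℝ]) (x y : Fin n → ℍ[ℝ]) :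
    g (-G) x y = - g G x y := by
  simp only [g, Matrix.neg_mulVec, dotProduct_neg]

theorem g_zero_right (G : Matrix (Fin n) (Fin n) ℍ[ℝ]) (x : Fin n → ℍ[ℝ]) : g G x 0 = 0 := by
  simp [g]

theorem g_zero_left (G : Matrix (Fin n) (Fin n) ℍ[ℝ]) (x : Fin n → ℍ[ℝ]) : g G 0 x = 0 := by
  simp [g]

theorem g_sub_right (G : Matrix (Fin n) (Fin n) ℍ[ℝ]) (x y z : Fin n → ℍ[ℝ]) :
    g G x (y - z) = g G x y - g G x z := by
  have h := g_add_right G x (y - z) z
  rw [sub_add_cancel] at h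
  rw [h, add_sub_cancel_right]

theorem g_sub_left (G : Matrix (Fin n) (Fin n) ℍ[ℝ]) (x y z : Fin n → ℍ[ℝ]) :
    g G (x - y) z = g G x z - g G y z := by
  have h := g_add_left G (x - y) y z
  rw [sub_add_cancel] at h
  rw [h, add_sub_cancel_right]

theorem dot_star_mulVec (A : Matrix (Fin n) (Fin n) ℍ[ℝ]) (x y : Fin n → ℍ[ℝ]) :
    star (A *ᵥ x) ⬝ᵥ y = star x ⬝ᵥ (Aᴴ *ᵥ y) := by
  simp only [dotProduct, Matrix.mulVec, Pi.star_apply, star_sum, star_mul, Finset.sum_mul,
    Finset.mul_sum, Matrix.conjTranspose_apply]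
  rw [Finset.sum_comm]
  exact Finset.sum_congr rfl fun i _ => Finset.sum_congr rfl fun j _ => by rw [mul_assoc]

theorem g_skew {G A : Matrix (Fin n) (Fin n) ℍ[ℝ]} (hA : G * A = -(Aᴴ * G))
    (x y : Fin n → ℍ[ℝ]) : g G (A *ᵥ x) y = - g G x (A *ᵥ y) := by
  simp only [g]
  rw [dot_star_mulVec, Matrix.mulVec_mulVec, Matrix.mulVec_mulVec, hA, Matrix.neg_mulVec,
    dotProduct_neg, neg_neg]

/-- `g x x` is real -/
theorem g_self_eq {G : Matrix (Fin n) (Fin n) ℍ[ℝ]} (hG : Gᴴ = G) (x : Fin n → ℍ[ℝ]) :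
    g G x x = ((g G x x).re : ℍ[ℝ]) := by
  have h := g_star hG x x
  exact Quaternion.star_eq_self.mp h

/-- right subspaces of `ℍⁿ` -/
abbrev Sub (n : ℕ) : Type := Submodule (ℍ[ℝ])ᵐᵒᵖ (Fin n → ℍ[ℝ])

/-- the orthogonal complement -/
noncomputable def perp (G : Matrix (Fin n) (Fin n) ℍ[ℝ]) (L : Sub n) : Sub n where
  carrier := {x | ∀ y ∈ L, g G y x = 0}
  add_mem' {x y} hx hy z hz := by rw [g_add_right, hx z hz, hy z hz, add_zero]
  zero_mem' z _ := g_zero_right G z
  smul_mem' q x hx z hz := by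
    obtain ⟨q, rfl⟩ := MulOpposite.op_surjective q
    rw [g_smul_right, hx z hz, zero_mul]

theorem mem_perp {G : Matrix (Fin n) (Fin n) ℍ[ℝ]} {L : Sub n} {x : Fin n → ℍ[ℝ]} :
    x ∈ perp G L ↔ ∀ y ∈ L, g G y x = 0 := Iff.rfl

theorem mem_perp' {G : Matrix (Fin n) (Fin n) ℍ[ℝ]} (hG : Gᴴ = G) {L : Sub n}
    {x : Fin n → ℍ[ℝ]} : x ∈ perp G L ↔ ∀ y ∈ L, g G x y = 0 := by
  rw [mem_perp]
  constructor
  · intro h y hy
    rw [← g_star hG, h y hy, star_zero]
  · intro h y hy
    rw [← g_star hG, h y hy, star_zero]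

theorem perp_anti {G : Matrix (Fin n) (Fin n) ℍ[ℝ]} {L M : Sub n} (h : L ≤ M) :
    perp G M ≤ perp G L := fun _ hx y hy => hx y (h hy)

theorem perp_neg (G : Matrix (Fin n) (Fin n) ℍ[ℝ]) (L : Sub n) : perp (-G) L = perp G L := by
  ext x
  simp only [mem_perp, g_neg, neg_eq_zero]

/-- `L` is `A`-invariant -/
def Inv (A : Matrix (Fin n) (Fin n) ℍ[ℝ]) (L : Sub n) : Prop := ∀ x ∈ L, A *ᵥ x ∈ L

theorem Inv.perp {G A : Matrix (Fin n) (Fin n) ℍ[ℝ]} (hG : Gᴴ = G) (hA : G * A = -(Aᴴ * G))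
    {L : Sub n} (h : Inv A L) : Inv A (perp G L) := by
  intro x hx y hy
  have h1 := g_skew hA y x
  rw [hx _ (h y hy)] at h1
  exact neg_eq_zero.mp h1.symm

theorem Inv.sup {A : Matrix (Fin n) (Fin n) ℍ[ℝ]} {L M : Sub n} (h : Inv A L) (h' : Inv A M) :
    Inv A (L ⊔ M) := by
  intro x hx
  obtain ⟨y, hy, z, hz, rfl⟩ := Submodule.mem_sup.mp hx
  rw [Matrix.mulVec_add]
  exact Submodule.add_mem_sup (h y hy) (h' z hz)

theorem Inv.inf {A : Matrix (Fin n) (Fin n) ℍ[ℝ]} {L M : Sub n} (h : Inv A L) (h' : Inv A M) :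
    Inv A (L ⊓ M) := fun x hx => ⟨h x hx.1, h' x hx.2⟩

/-- `L` is `G`-neutral -/
def Neutral (G : Matrix (Fin n) (Fin n) ℍ[ℝ]) (L : Sub n) : Prop :=
  ∀ x ∈ L, ∀ y ∈ L, g G x y = 0

/-- `L` is `G`-nonnegative (`x* G x` is real if `G` is hermitian) -/
def Nonneg (G : Matrix (Fin n) (Fin n) ℍ[ℝ]) (L : Sub n) : Prop :=
  ∀ x ∈ L, 0 ≤ (g G x x).re

/-- Cauchy-Schwarz for a semidefinite form -/
theorem Nonneg.eq_zero {G : Matrix (Fin n) (Fin n) ℍ[ℝ]} (hG : Gᴴ = G) {M : Sub n}
    (hM : Nonneg G M) {x y : Fin n → ℍ[ℝ]} (hx : x ∈ M) (hy : y ∈ M) (h0 : (g G x x).re = 0) :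
    g G x y = 0 := by
  by_contra hne
  have hn : 0 < normSq (g G x y) := by
    rw [lt_iff_le_and_ne]
    exact ⟨normSq_nonneg, fun h => hne (normSq_eq_zero.mp h.symm)⟩
  -- test with `x q + y`, `q = - t g(x, y)`
  have key : ∀ t : ℝ, 0 ≤ (g G y y).re - 2 * t * normSq (g G x y) := by
    intro t
    set c := g G x y with hc
    have hmem : op (-(t : ℍ[ℝ]) * c) • x + y ∈ M := M.add_mem (M.smul_mem _ hx) hy
    have h1 := hM _ hmem
    rw [g_add_left, g_add_right, g_add_right, g_smul_left, g_smul_left, g_smul_right,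
      g_smul_right, ← g_star hG x y, ← hc, g_self_eq hG x, h0] at h1
    have e1 : (star (-(t : ℍ[ℝ]) * c) * c).re = - t * normSq c := by
      rw [Quaternion.normSq_def']
      simp only [Quaternion.re_mul, Quaternion.re_star, Quaternion.imI_star, Quaternion.imJ_star,
        Quaternion.imK_star, Quaternion.imI_mul, Quaternion.imJ_mul, Quaternion.imK_mul,
        Quaternion.re_neg, Quaternion.imI_neg, Quaternion.imJ_neg, Quaternion.imK_neg,
        Quaternion.re_coe, Quaternion.imI_coe, Quaternion.imJ_coe, Quaternion.imK_coe]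
      ring
    have e2 : (star c * (-(t : ℍ[ℝ]) * c)).re = - t * normSq c := by
      rw [Quaternion.normSq_def']
      simp only [Quaternion.re_mul, Quaternion.re_star, Quaternion.imI_star, Quaternion.imJ_star,
        Quaternion.imK_star, Quaternion.imI_mul, Quaternion.imJ_mul, Quaternion.imK_mul,
        Quaternion.re_neg, Quaternion.imI_neg, Quaternion.imJ_neg, Quaternion.imK_neg,
        Quaternion.re_coe, Quaternion.imI_coe, Quaternion.imJ_coe, Quaternion.imK_coe]
      ring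
    have e3 : ((0 : ℝ) : ℍ[ℝ]) = 0 := Quaternion.coe_zero
    rw [e3, zero_mul, mul_zero, zero_add, Quaternion.re_add, Quaternion.re_add, e1, e2] at h1
    linarith
  have h2 := key (((g G y y).re + 1) / (2 * normSq (g G x y)))
  have h3 : 2 * (((g G y y).re + 1) / (2 * normSq (g G x y))) * normSq (g G x y) =
      (g G y y).re + 1 := by
    field_simp
  linarith

/-! ### Dimensions -/

/-- the real bilinear form `Re (x* G y)` -/
noncomputable def sB (G : Matrix (Fin n) (Fin n) ℍ[ℝ]) : LinearMap.BilinForm ℝ (Fin n → ℍ[ℝ]) :=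
  LinearMap.mk₂ ℝ (fun x y => (g G x y).re)
    (fun x y z => by rw [g_add_left, Quaternion.re_add])
    (fun c x y => by
      have h : c • x = op (c : ℍ[ℝ]) • x := by
        ext1 i
        rw [smul_apply', Pi.smul_apply, Quaternion.mul_coe_eq_smul]
      rw [h, g_smul_left, Quaternion.star_coe, Quaternion.coe_mul_eq_smul, Quaternion.re_smul])
    (fun x y z => by rw [g_add_right, Quaternion.re_add])
    (fun c x y => by
      have h : c • y = op (c : ℍ[ℝ]) • y := by
        ext1 i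
        rw [smul_apply', Pi.smul_apply, Quaternion.mul_coe_eq_smul]
      rw [h, g_smul_right, Quaternion.mul_coe_eq_smul, Quaternion.re_smul])

theorem sB_apply (G : Matrix (Fin n) (Fin n) ℍ[ℝ]) (x y : Fin n → ℍ[ℝ]) :
    sB G x y = (g G x y).re := rfl

theorem sB_refl {G : Matrix (Fin n) (Fin n) ℍ[ℝ]} (hG : Gᴴ = G) : (sB G).IsRefl := by
  intro x y h
  rw [sB_apply] at h ⊢
  rw [← g_star hG, Quaternion.re_star, h]

theorem restrict_perp (G : Matrix (Fin n) (Fin n) ℍ[ℝ]) (L : Sub n) :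
    (sB G).orthogonal (L.restrictScalars ℝ) = (perp G L).restrictScalars ℝ := by
  ext x
  rw [LinearMap.BilinForm.mem_orthogonal_iff, Submodule.restrictScalars_mem, mem_perp]
  constructor
  · intro h y hy
    -- test with `y q` for `q = g y x`
    have h1 : (sB G) (op (g G y x) • y) x = 0 := h _ (L.smul_mem _ hy)
    rw [sB_apply, g_smul_left, Quaternion.star_mul_self, Quaternion.re_coe] at h1
    exact normSq_eq_zero.mp h1
  · intro h y hy
    show (sB G) y x = 0
    rw [sB_apply, h y hy, Quaternion.re_zero]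

theorem restrict_sup (L M : Sub n) : (L ⊔ M).restrictScalars ℝ =
    L.restrictScalars ℝ ⊔ M.restrictScalars ℝ := by
  ext x
  rw [Submodule.restrictScalars_mem, Submodule.mem_sup, Submodule.mem_sup]
  rfl

theorem restrict_inf (L M : Sub n) : (L ⊓ M).restrictScalars ℝ =
    L.restrictScalars ℝ ⊓ M.restrictScalars ℝ := rfl

theorem perp_eq_sup {G : Matrix (Fin n) (Fin n) ℍ[ℝ]} (hG : Gᴴ = G) {N L : Sub n} (hNL : N ≤ L)
    (hR : perp G ⊤ ≤ N) (hL : L ⊓ perp G L = N) : perp G N = L ⊔ perp G L := by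
  have h1 : L ⊔ perp G L ≤ perp G N := by
    refine sup_le ?_ (perp_anti hNL)
    intro x hx y hy
    have hy' : y ∈ perp G L := by
      rw [← hL] at hy
      exact hy.2
    exact (mem_perp' hG).mp hy' x hx
  have hL1 := LinearMap.BilinForm.finrank_add_finrank_orthogonal (sB_refl hG) (L.restrictScalars ℝ)
  have hN1 := LinearMap.BilinForm.finrank_add_finrank_orthogonal (sB_refl hG) (N.restrictScalars ℝ)
  have ht : (⊤ : Submodule ℝ (Fin n → ℍ[ℝ])) = (⊤ : Sub n).restrictScalars ℝ := rfl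
  rw [ht, restrict_perp, restrict_perp, ← restrict_inf] at hL1 hN1
  rw [inf_eq_right.mpr (hR.trans hNL)] at hL1
  rw [inf_eq_right.mpr hR] at hN1
  have h2 := Submodule.finrank_sup_add_finrank_inf_eq (L.restrictScalars ℝ)
    ((perp G L).restrictScalars ℝ)
  rw [← restrict_sup, ← restrict_inf, hL] at h2
  have h3 : (L ⊔ perp G L).restrictScalars ℝ = (perp G N).restrictScalars ℝ := by
    apply Submodule.eq_of_le_of_finrank_eq
    · exact h1
    · omega
  apply le_antisymm _ h1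
  intro x hx
  have h4 : x ∈ (perp G N).restrictScalars ℝ := hx
  rw [← h3] at h4
  exact h4

/-! ### Eigenvectors modulo a subspace -/

/-- multiplication by `A` as a real-linear map -/
noncomputable def mulR (A : Matrix (Fin n) (Fin n) ℍ[ℝ]) : Module.End ℝ (Fin n → ℍ[ℝ]) where
  toFun x := A *ᵥ x
  map_add' := Matrix.mulVec_add A
  map_smul' c x := by
    have h : ∀ z : Fin n → ℍ[ℝ], c • z = op (c : ℍ[ℝ]) • z := by
      intro z
      ext1 i
      rw [smul_apply', Pi.smul_apply, Quaternion.mul_coe_eq_smul]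
    rw [h, mulVec_smul_right, ← h]
    rfl

theorem real_smul_mem (L : Sub n) (c : ℝ) {x : Fin n → ℍ[ℝ]} (hx : x ∈ L) : c • x ∈ L :=
  (L.restrictScalars ℝ).smul_mem c hx

theorem Inv.pow {A : Matrix (Fin n) (Fin n) ℍ[ℝ]} {L : Sub n} (h : Inv A L)
    (p : Polynomial ℝ) {x : Fin n → ℍ[ℝ]} (hx : x ∈ L) :
    (Polynomial.aeval (mulR A) p) x ∈ L := by
  induction p using Polynomial.induction_on' with
  | add p q hp hq =>
    rw [map_add, LinearMap.add_apply]
    exact L.add_mem hp hq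
  | monomial k c =>
    rw [Polynomial.aeval_monomial]
    rw [Module.End.mul_apply, Module.algebraMap_end_apply]
    apply real_smul_mem
    induction k with
    | zero => simpa using hx
    | succ k ih =>
      rw [pow_succ', Module.End.mul_apply]
      exact h _ ih

theorem exists_roots (s t : ℝ) : ∃ μ μ' : ℍ[ℝ], μ + μ' = (s : ℍ[ℝ]) ∧ μ' * μ = (t : ℍ[ℝ]) := by
  by_cases hD : 0 ≤ s ^ 2 - 4 * t
  · refine ⟨(((s + Real.sqrt (s ^ 2 - 4 * t)) / 2 : ℝ) : ℍ[ℝ]),
      (((s - Real.sqrt (s ^ 2 - 4 * t)) / 2 : ℝ) : ℍ[ℝ]), ?_, ?_⟩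
    · rw [← Quaternion.coe_add]
      congr 1
      ring
    · rw [← Quaternion.coe_mul]
      congr 1
      have := Real.mul_self_sqrt hD
      linear_combination (-1 / 4) * this
  · push Not at hD
    have hD' : 0 ≤ 4 * t - s ^ 2 := by linarith
    have h2 := Real.mul_self_sqrt hD'
    obtain ⟨m, m1, m2, m3, m4⟩ : ∃ m : ℍ[ℝ], m.re = s / 2 ∧
        m.imI = Real.sqrt (4 * t - s ^ 2) / 2 ∧ m.imJ = 0 ∧ m.imK = 0 :=
      ⟨⟨s / 2, Real.sqrt (4 * t - s ^ 2) / 2, 0, 0⟩, rfl, rfl, rfl, rfl⟩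
    refine ⟨m, star m, ?_, ?_⟩
    · ext
      · rw [Quaternion.re_add, Quaternion.re_star, m1, Quaternion.re_coe]; ring
      · rw [Quaternion.imI_add, Quaternion.imI_star, m2, Quaternion.imI_coe]; ring
      · rw [Quaternion.imJ_add, Quaternion.imJ_star, m3, Quaternion.imJ_coe]; ring
      · rw [Quaternion.imK_add, Quaternion.imK_star, m4, Quaternion.imK_coe]; ring
    · rw [Quaternion.star_mul_self]
      congr 1
      rw [Quaternion.normSq_def', m1, m2, m3, m4]
      linear_combination (1 / 4) * h2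

theorem coe_smul_eq (c : ℝ) (x : Fin n → ℍ[ℝ]) : op (c : ℍ[ℝ]) • x = c • x := by
  ext1 i
  rw [smul_apply', Pi.smul_apply, Quaternion.mul_coe_eq_smul]

theorem exists_eigen {A : Matrix (Fin n) (Fin n) ℍ[ℝ]} {N U : Sub n} (hN : Inv A N) (hU : Inv A U)
    (hNU : ¬ U ≤ N) : ∃ x ∈ U, x ∉ N ∧ ∃ q : ℍ[ℝ], A *ᵥ x - op q • x ∈ N := by
  classical
  obtain ⟨z₀, hz₀, hz₀'⟩ := Set.not_subset.mp hNU
  -- polynomials of minimal degree mapping an element outside `N` into `N`
  let P : ℕ → Prop := fun d => ∃ p : Polynomial ℝ, p ≠ 0 ∧ p.natDegree = d ∧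
    ∃ z ∈ U, z ∉ N ∧ (Polynomial.aeval (mulR A) p) z ∈ N
  have hP : ∃ d, P d := by
    refine ⟨_, minpoly ℝ (mulR A), minpoly.ne_zero (Algebra.IsIntegral.isIntegral _), rfl, z₀, hz₀,
      hz₀', ?_⟩
    rw [minpoly.aeval, LinearMap.zero_apply]
    exact N.zero_mem
  obtain ⟨p, hp0, hpd, z, hzU, hzN, hpz⟩ := Nat.find_spec hP
  have hmin : ∀ q : Polynomial ℝ, q ≠ 0 → q.natDegree < p.natDegree → ∀ w ∈ U, w ∉ N →
      (Polynomial.aeval (mulR A) q) w ∉ N := by
    intro q hq0 hqd w hw hwN hcon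
    rw [hpd] at hqd
    exact Nat.find_min hP hqd ⟨q, hq0, rfl, w, hw, hwN, hcon⟩
  have hirr : Irreducible p := by
    refine ⟨?_, ?_⟩
    · intro hu
      obtain ⟨c, hc, rfl⟩ := Polynomial.isUnit_iff.mp hu
      rw [Polynomial.aeval_C, Module.algebraMap_end_apply] at hpz
      apply hzN
      have h1 := real_smul_mem N c⁻¹ hpz
      rwa [smul_smul, inv_mul_cancel₀ hc.ne_zero, one_smul] at h1
    · intro a b hab
      by_contra hcon
      push Not at hcon
      have ha0 : a ≠ 0 := by rintro rfl; exact hp0 (by rw [hab, zero_mul])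
      have hb0 : b ≠ 0 := by rintro rfl; exact hp0 (by rw [hab, mul_zero])
      have hda : 0 < a.natDegree := by
        by_contra h
        apply hcon.1
        rw [Polynomial.isUnit_iff_degree_eq_zero, Polynomial.degree_eq_natDegree ha0]
        simp only [not_lt, Nat.le_zero] at h
        rw [h]; rfl
      have hdb : 0 < b.natDegree := by
        by_contra h
        apply hcon.2
        rw [Polynomial.isUnit_iff_degree_eq_zero, Polynomial.degree_eq_natDegree hb0]
        simp only [not_lt, Nat.le_zero] at h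
        rw [h]; rfl
      have hd : p.natDegree = a.natDegree + b.natDegree := by
        rw [hab, Polynomial.natDegree_mul ha0 hb0]
      rw [hab, map_mul, Module.End.mul_apply] at hpz
      exact hmin a ha0 (by omega) _ (hU.pow b hzU) (hmin b hb0 (by omega) z hzU hzN) hpz
  have hdeg : p.natDegree ≤ 2 := Polynomial.natDegree_le_of_degree_le (Irreducible.degree_le_two hirr)
  have hpos : 0 < p.natDegree := hirr.natDegree_pos
  -- expand `p`
  have hexp : (Polynomial.aeval (mulR A) p) z = p.coeff 2 • (A *ᵥ (A *ᵥ z)) + p.coeff 1 • (A *ᵥ z) +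
      p.coeff 0 • z := by
    have h1 : p = Polynomial.C (p.coeff 2) * Polynomial.X ^ 2 + Polynomial.C (p.coeff 1) *
        Polynomial.X + Polynomial.C (p.coeff 0) := by
      have := p.as_sum_range_C_mul_X_pow' (n := 3) (by omega)
      conv_lhs => rw [this]
      simp only [Finset.sum_range_succ, Finset.range_one, Finset.sum_singleton, pow_zero, mul_one,
        pow_one]
      ring
    conv_lhs => rw [h1]
    simp only [map_add, map_mul, Polynomial.aeval_C, Polynomial.aeval_X, map_pow,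
      LinearMap.add_apply, Module.End.mul_apply, Module.algebraMap_end_apply, pow_two]
    rfl
  rw [hexp] at hpz
  by_cases ha : p.coeff 2 = 0
  · have h1 : p.natDegree = 1 := by
      have h2 : p.natDegree ≠ 2 := by
        intro h
        have h3 : p.leadingCoeff ≠ 0 := Polynomial.leadingCoeff_ne_zero.mpr hp0
        rw [Polynomial.leadingCoeff, h] at h3
        exact h3 ha
      omega
    have hb : p.coeff 1 ≠ 0 := by
      have h3 : p.leadingCoeff ≠ 0 := Polynomial.leadingCoeff_ne_zero.mpr hp0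
      rwa [Polynomial.leadingCoeff, h1] at h3
    refine ⟨z, hzU, hzN, ((-(p.coeff 0 / p.coeff 1) : ℝ) : ℍ[ℝ]), ?_⟩
    rw [coe_smul_eq]
    have h2 := real_smul_mem N (p.coeff 1)⁻¹ hpz
    rw [ha, zero_smul, zero_add, smul_add, smul_smul, smul_smul, inv_mul_cancel₀ hb,
      one_smul] at h2
    have h3 : A *ᵥ z - (-(p.coeff 0 / p.coeff 1)) • z =
        A *ᵥ z + ((p.coeff 1)⁻¹ * p.coeff 0) • z := by
      rw [neg_smul, sub_neg_eq_add, div_eq_inv_mul]
    rw [h3]
    exact h2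
  · obtain ⟨μ, μ', hs, ht⟩ := exists_roots (-(p.coeff 1 / p.coeff 2)) (p.coeff 0 / p.coeff 2)
    have h2 := real_smul_mem N (p.coeff 2)⁻¹ hpz
    rw [smul_add, smul_add, smul_smul, smul_smul, smul_smul, inv_mul_cancel₀ ha, one_smul] at h2
    have hx : A *ᵥ (A *ᵥ z - op μ' • z) - op μ • (A *ᵥ z - op μ' • z) ∈ N := by
      have h3 : A *ᵥ (A *ᵥ z - op μ' • z) - op μ • (A *ᵥ z - op μ' • z) =
          A *ᵥ (A *ᵥ z) - (op (μ + μ') • (A *ᵥ z)) + op (μ' * μ) • z := by
        rw [Matrix.mulVec_sub, mulVec_smul_right, smul_sub, smul_smul, MulOpposite.op_add,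
          add_smul, ← MulOpposite.op_mul]
        abel
      rw [h3, hs, ht, coe_smul_eq, coe_smul_eq, neg_smul, sub_neg_eq_add, div_eq_inv_mul,
        div_eq_inv_mul]
      exact h2
    by_cases hxN : A *ᵥ z - op μ' • z ∈ N
    · exact ⟨z, hzU, hzN, μ', hxN⟩
    · exact ⟨_, U.sub_mem (hU z hzU) (U.smul_mem _ hzU), hxN, μ, hx⟩

/-! ### The main theorem -/

theorem exists_maximal (P : Sub n → Prop) {N : Sub n} (hN : P N) :
    ∃ M, N ≤ M ∧ P M ∧ ∀ M', P M' → M ≤ M' → M' = M := by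
  have hnoeth : IsNoetherian (ℍ[ℝ])ᵐᵒᵖ (Fin n → ℍ[ℝ]) := isNoetherian_of_tower ℝ inferInstance
  obtain ⟨M, hM, hmax⟩ := (wellFounded_gt (α := Sub n)).has_min {M | N ≤ M ∧ P M} ⟨N, le_rfl, hN⟩
  refine ⟨M, hM.1, hM.2, fun M' hM' hle => ?_⟩
  by_contra hne
  exact hmax M' ⟨hM.1.trans hle, hM'⟩ (lt_of_le_of_ne hle (Ne.symm hne))

/-- adding an eigenvector modulo an invariant subspace -/
theorem Inv.sup_span {A : Matrix (Fin n) (Fin n) ℍ[ℝ]} {N L : Sub n} (hL : Inv A L) (hNL : N ≤ L)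
    {x : Fin n → ℍ[ℝ]} {q : ℍ[ℝ]} (hx : A *ᵥ x - op q • x ∈ N) :
    Inv A (L ⊔ Submodule.span _ {x}) := by
  intro y hy
  obtain ⟨u, hu, v, hv, rfl⟩ := Submodule.mem_sup.mp hy
  obtain ⟨c, rfl⟩ := Submodule.mem_span_singleton.mp hv
  obtain ⟨c, rfl⟩ := MulOpposite.op_surjective c
  rw [Matrix.mulVec_add, mulVec_smul_right]
  have h1 : A *ᵥ u + op c • A *ᵥ x = (A *ᵥ u + op c • (A *ᵥ x - op q • x)) + op (q * c) • x := by
    rw [smul_sub, smul_smul, ← MulOpposite.op_mul]
    abel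
  rw [h1]
  exact Submodule.add_mem_sup (L.add_mem (hL u hu) (L.smul_mem _ (hNL hx)))
    (Submodule.smul_mem _ _ (Submodule.mem_span_singleton_self x))

theorem Neutral.sup_span {G : Matrix (Fin n) (Fin n) ℍ[ℝ]} (hG : Gᴴ = G) {N : Sub n}
    (hN : Neutral G N) {x : Fin n → ℍ[ℝ]} (hx : x ∈ perp G N) (h0 : g G x x = 0) :
    Neutral G (N ⊔ Submodule.span _ {x}) := by
  intro y hy z hz
  obtain ⟨u, hu, v, hv, rfl⟩ := Submodule.mem_sup.mp hy
  obtain ⟨c, rfl⟩ := Submodule.mem_span_singleton.mp hv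
  obtain ⟨u', hu', v', hv', rfl⟩ := Submodule.mem_sup.mp hz
  obtain ⟨c', rfl⟩ := Submodule.mem_span_singleton.mp hv'
  obtain ⟨c, rfl⟩ := MulOpposite.op_surjective c
  obtain ⟨c', rfl⟩ := MulOpposite.op_surjective c'
  rw [g_add_left, g_add_right, g_add_right, g_smul_left, g_smul_left, g_smul_right, g_smul_right,
    h0, hN u hu u' hu', hx u hu, (mem_perp' hG).mp hx u' hu']
  simp

theorem Nonneg.sup_span {G : Matrix (Fin n) (Fin n) ℍ[ℝ]} (hG : Gᴴ = G) {L : Sub n}
    (hL : Nonneg G L) {x : Fin n → ℍ[ℝ]} (hx : x ∈ perp G L) (h0 : 0 ≤ (g G x x).re) :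
    Nonneg G (L ⊔ Submodule.span _ {x}) := by
  intro y hy
  obtain ⟨u, hu, v, hv, rfl⟩ := Submodule.mem_sup.mp hy
  obtain ⟨c, rfl⟩ := Submodule.mem_span_singleton.mp hv
  obtain ⟨c, rfl⟩ := MulOpposite.op_surjective c
  rw [g_add_left, g_add_right, g_add_right, g_smul_left, g_smul_left, g_smul_right, g_smul_right,
    hx u hu, (mem_perp' hG).mp hx u hu, zero_mul, mul_zero, zero_add, add_zero,
    Quaternion.re_add]
  refine add_nonneg (hL u hu) ?_
  rw [g_self_eq hG x, Quaternion.coe_mul_eq_smul, mul_smul_comm, Quaternion.re_smul,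
    Quaternion.star_mul_self, Quaternion.re_coe]
  exact mul_nonneg h0 normSq_nonneg

theorem Neutral.nonneg {G : Matrix (Fin n) (Fin n) ℍ[ℝ]} {N : Sub n} (h : Neutral G N) :
    Nonneg G N := fun x hx => by rw [h x hx x hx, Quaternion.re_zero]

theorem Neutral.neg {G : Matrix (Fin n) (Fin n) ℍ[ℝ]} {N : Sub n} (h : Neutral G N) :
    Neutral (-G) N := fun x hx y hy => by rw [g_neg, h x hx y hy, neg_zero]

/-- the isotropic part of a semidefinite invariant subspace containing a maximal neutral invariant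
subspace `N` is `N` -/
theorem inf_perp_eq {G A : Matrix (Fin n) (Fin n) ℍ[ℝ]} (hG : Gᴴ = G) (hA : G * A = -(Aᴴ * G))
    {N L : Sub n} (hN : Neutral G N) (hmax : ∀ M', Inv A M' ∧ Neutral G M' → N ≤ M' → M' = N)
    (hL : Nonneg G L) (hLi : Inv A L) (hNL : N ≤ L) : L ⊓ perp G L = N := by
  apply hmax
  · refine ⟨hLi.inf (hLi.perp hG hA), ?_⟩
    intro x hx y hy
    exact hy.2 x hx.1
  · intro x hx
    refine ⟨hNL hx, (mem_perp' hG).mpr ?_⟩
    intro y hy
    exact hL.eq_zero hG (hNL hx) hy (by rw [hN x hx x hx, Quaternion.re_zero])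

theorem main {G A : Matrix (Fin n) (Fin n) ℍ[ℝ]} (hG : Gᴴ = G) (hA : G * A = -(Aᴴ * G))
    {N₀ : Sub n} (hN₀i : Inv A N₀) (hN₀ : Neutral G N₀) :
    ∃ L : Sub n, N₀ ≤ L ∧ Inv A L ∧ Nonneg G L ∧ ∀ M, Nonneg G M → L ≤ M → M = L := by
  have hG' : (-G)ᴴ = -G := by rw [Matrix.conjTranspose_neg, hG]
  have hA' : (-G) * A = -(Aᴴ * (-G)) := by rw [neg_mul, mul_neg, hA]
  -- a maximal invariant neutral subspace
  obtain ⟨N, hN₀N, ⟨hNi, hN⟩, hNmax⟩ :=
    exists_maximal (fun M : Sub n => Inv A M ∧ Neutral G M) ⟨hN₀i, hN₀⟩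
  -- a maximal invariant nonnegative subspace
  obtain ⟨L, hNL, ⟨hLi, hL⟩, hLmax⟩ :=
    exists_maximal (fun M : Sub n => Inv A M ∧ Nonneg G M) ⟨hNi, hN.nonneg⟩
  -- the radical is contained in `N`
  have hR : perp G ⊤ ≤ N := by
    have h1 : N ⊔ perp G ⊤ = N := by
      apply hNmax
      · refine ⟨hNi.sup (Inv.perp hG hA fun x _ => trivial), ?_⟩
        intro x hx y hy
        obtain ⟨u, hu, v, hv, rfl⟩ := Submodule.mem_sup.mp hx
        obtain ⟨u', hu', v', hv', rfl⟩ := Submodule.mem_sup.mp hy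
        rw [g_add_left, g_add_right, hN u hu u' hu', hv' u trivial,
          (mem_perp' hG).mp hv _ trivial]
        simp
      · exact le_sup_left
    rw [← h1]
    exact le_sup_right
  have hLN : L ⊓ perp G L = N := inf_perp_eq hG hA hN hNmax hL hLi hNL
  have hsup := perp_eq_sup hG hNL hR hLN
  -- a maximal invariant nonpositive subspace of the complement
  set U := perp G L with hU
  have hUi : Inv A U := hLi.perp hG hA
  have hNU : N ≤ U := by rw [← hLN]; exact inf_le_right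
  obtain ⟨K, hNK, ⟨hKi, hK, hKU⟩, hKmax⟩ :=
    exists_maximal (fun M : Sub n => Inv A M ∧ Nonneg (-G) M ∧ M ≤ U)
      ⟨hNi, hN.neg.nonneg, hNU⟩
  have hKN : K ⊓ perp G K = N := by
    rw [← perp_neg]
    refine inf_perp_eq hG' hA' hN.neg ?_ hK hKi hNK
    intro M' hM' hle
    refine hNmax M' ⟨hM'.1, ?_⟩ hle
    have := hM'.2.neg
    rwa [neg_neg] at this
  have hsup' := perp_eq_sup hG hNK hR hKN
  have hUK : U ≤ K := by
    have h1 : U ⊓ perp G K ≤ N := by
      by_contra hcon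
      obtain ⟨x, hxU, hxN, q, hq⟩ := exists_eigen hNi (hUi.inf (hKi.perp hG hA)) hcon
      have hspan : x ∈ (N ⊔ Submodule.span _ {x} : Sub n) :=
        (le_sup_right : Submodule.span _ {x} ≤ N ⊔ Submodule.span _ {x})
          (Submodule.mem_span_singleton_self x)
      rcases lt_trichotomy (g G x x).re 0 with h | h | h
      · -- negative
        have h2 : K ⊔ Submodule.span _ {x} = K := by
          apply hKmax
          · refine ⟨hKi.sup_span hNK hq, ?_, ?_⟩
            · apply hK.sup_span hG'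
              · rw [perp_neg]; exact hxU.2
              · rw [g_neg, Quaternion.re_neg]; linarith
            · refine sup_le hKU ?_
              rw [Submodule.span_singleton_le_iff_mem]
              exact hxU.1
          · exact le_sup_left
        have h3 : x ∈ K := by
          rw [← h2]
          exact (le_sup_right : Submodule.span _ {x} ≤ K ⊔ Submodule.span _ {x})
            (Submodule.mem_span_singleton_self x)
        apply hxN
        rw [← hKN]
        exact ⟨h3, hxU.2⟩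
      · -- neutral
        have h0 : g G x x = 0 := by rw [g_self_eq hG x, h, Quaternion.coe_zero]
        have h2 : N ⊔ Submodule.span _ {x} = N := by
          apply hNmax
          · exact ⟨hNi.sup_span le_rfl hq, hN.sup_span hG (perp_anti hNL hxU.1) h0⟩
          · exact le_sup_left
        rw [h2] at hspan
        exact hxN hspan
      · -- positive
        have h2 : L ⊔ Submodule.span _ {x} = L := by
          apply hLmax
          · exact ⟨hLi.sup_span hNL hq, hL.sup_span hG hxU.1 h.le⟩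
          · exact le_sup_left
        have h3 : x ∈ L := by
          rw [← h2]
          exact (le_sup_right : Submodule.span _ {x} ≤ L ⊔ Submodule.span _ {x})
            (Submodule.mem_span_singleton_self x)
        apply hxN
        rw [← hLN]
        exact ⟨h3, hxU.1⟩
    intro x hx
    have h2 : x ∈ perp G N := perp_anti hNL hx
    rw [hsup'] at h2
    obtain ⟨u, hu, v, hv, huv⟩ := Submodule.mem_sup.mp h2
    have h3 : v ∈ U := by
      have : v = x - u := by rw [← huv]; abel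
      rw [this]
      exact U.sub_mem hx (hKU hu)
    rw [← huv]
    exact K.add_mem hu (hNK (h1 ⟨h3, hv⟩))
  have hUeq : U = K := le_antisymm hUK hKU
  refine ⟨L, hN₀N.trans hNL, hLi, hL, ?_⟩
  intro M hM hLM
  apply le_antisymm _ hLM
  intro x hx
  have h1 : x ∈ perp G N := by
    intro y hy
    exact hM.eq_zero hG (hLM (hNL hy)) hx (by rw [hN y hy y hy, Quaternion.re_zero])
  rw [hsup] at h1
  obtain ⟨y, hy, z, hz, hyz⟩ := Submodule.mem_sup.mp h1
  have hzM : z ∈ M := by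
    have : z = x - y := by rw [← hyz]; abel
    rw [this]
    exact M.sub_mem hx (hLM hy)
  have hz1 := hM z hzM
  have hzK : z ∈ K := hUK hz
  have hz2 := hK z hzK
  rw [g_neg, Quaternion.re_neg] at hz2
  have hz0 : (g (-G) z z).re = 0 := by
    rw [g_neg, Quaternion.re_neg]
    linarith
  have hzN : z ∈ N := by
    rw [← hKN]
    refine ⟨hzK, (mem_perp' hG).mpr ?_⟩
    intro w hw
    have := hK.eq_zero hG' hzK hw hz0
    rw [g_neg, neg_eq_zero] at this
    exact this
  rw [← hyz]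
  exact L.add_mem hy (hNL hzN)

end Pool.Agent.X192.QH
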